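import Pool.Agent.Helper86.TH.Stmts
import Pool.Agent.Helper86.TH.Basic4

/-! # Row GG: the operators `G_k` commute -/

namespace TH29

open TH MvPolynomial Finset

noncomputable section

section
variable {K : Type*} [Field K] [CharZero K]

/-- elements with coordinates in degrees at least `n` -/
def GeS (b : Module.Basis Par K (Sy K)) (n : ℕ) : Submodule K (Sy K) where
  carrier := {F | ∀ ν, TH.card ν < n → b.repr F ν = 0}
  add_mem' := by
    intro F G hF hG ν hν
    rw [map_add, Finsupp.add_apply, hF ν hν, hG ν hν, add_zero]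
  zero_mem' := by
    intro ν _
    rw [map_zero, Finsupp.zero_apply]
  smul_mem' := by
    intro c F hF ν hν
    rw [map_smul, Finsupp.smul_apply, hF ν hν, smul_zero]

theorem mem_GeS {b : Module.Basis Par K (Sy K)} {n : ℕ} {F : Sy K} :
    F ∈ GeS b n ↔ ∀ ν, TH.card ν < n → b.repr F ν = 0 := Iff.rfl

theorem GeS_mono {b : Module.Basis Par K (Sy K)} {m n : ℕ} (h : m ≤ n) {F : Sy K}
    (hF : F ∈ GeS b n) : F ∈ GeS b m := fun ν hν => hF ν (by omega)

theorem GeS_basis (b : Module.Basis Par K (Sy K)) (μ : Par) : b μ ∈ GeS b (TH.card μ) := by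
  intro ν hν
  rw [Module.Basis.repr_self, Finsupp.single_eq_of_ne]
  rintro rfl
  omega

theorem GeS_dg (b : Module.Basis Par K (Sy K)) (f : Par → K) {n : ℕ} {F : Sy K}
    (hF : F ∈ GeS b n) : dg b f F ∈ GeS b n := by
  intro ν hν
  rw [dg_repr, hF ν hν, mul_zero]

theorem GeS_mu {q t : K} {b : Module.Basis Par K (Sy K)} (h : IsE q t b) {r n : ℕ} {G F : Sy K}
    (hG : WH r G) (hF : F ∈ GeS b n) : mu G F ∈ GeS b (n + r) := by
  have h1 : mu G F = ∑ κ ∈ (b.repr F).support, (b.repr F κ) • mu G (b κ) := by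
    conv_lhs => rw [← b.linearCombination_repr F]
    rw [Finsupp.linearCombination_apply, Finsupp.sum, map_sum]
    exact Finset.sum_congr rfl fun κ _ => by rw [map_smul]
  rw [h1]
  refine Submodule.sum_mem _ fun κ hκ => Submodule.smul_mem _ _ ?_
  rw [Finsupp.mem_support_iff] at hκ
  have h2 : n ≤ TH.card κ := by
    by_contra h3
    exact hκ (hF κ (by omega))
  intro ν hν
  exact h.repr_zero (WH_mul hG (h.hom κ)) (by omega)

/-- the part of `G_k` which raises the degree -/
def Rk (q t : K) (b : Module.Basis Par K (Sy K)) (k : ℕ) : Module.End K (Sy K) :=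
  ∑ p ∈ (antidiagonal k).erase (0, k), mu (est q t p.1) * Nn q t b p.2

theorem Gk_eq (q t : K) (b : Module.Basis Par K (Sy K)) (k : ℕ) :
    Gk q t b k = Nn q t b k + Rk q t b k := by
  classical
  have h : ((0, k) : ℕ × ℕ) ∈ antidiagonal k := by
    rw [HasAntidiagonal.mem_antidiagonal]; simp
  have h1 : (mu (est q t 0) : Module.End K (Sy K)) = 1 := by
    rw [est_zero]
    refine LinearMap.ext fun F => ?_
    rw [mu_apply, one_mul, Module.End.one_apply]
  rw [Gk, Rk, ← Finset.add_sum_erase _ _ h, h1, one_mul]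

theorem GeS_Rk {q t : K} {b : Module.Basis Par K (Sy K)} (h : IsE q t b) (k : ℕ) {n : ℕ}
    {F : Sy K} (hF : F ∈ GeS b n) : Rk q t b k F ∈ GeS b (n + 1) := by
  rw [Rk, LinearMap.sum_apply]
  refine Submodule.sum_mem _ fun p hp => ?_
  rw [Finset.mem_erase, HasAntidiagonal.mem_antidiagonal] at hp
  have h1 : 1 ≤ p.1 := by
    rcases Nat.eq_zero_or_pos p.1 with h0 | h0
    · exfalso
      apply hp.1
      ext
      · exact h0
      · have := hp.2
        simp only
        omega
    · exact h0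
  rw [Module.End.mul_apply]
  exact GeS_mono (show n + 1 ≤ n + p.1 by omega) (GeS_mu h (WH_est q t p.1) (GeS_dg b _ hF))

end

variable (K : Type*) [Field K] [CharZero K]

theorem st_GG (h1 : ST_G1 K) (h2 : ST_RIG K) : ST_GG K := by
  intro q t hG b hb k l
  have hE : IsE q t b := hb.toIsE
  have g1 := h1 q t hG b hb k
  have g2 := h1 q t hG b hb l
  refine sub_eq_zero.1 (h2 q t hG b hb _ ?_ ?_)
  · have c1 : Commute (Gk q t b k) (mu (X 0) + Dk q t 0) := g1
    have c2 : Commute (Gk q t b l) (mu (X 0) + Dk q t 0) := g2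
    exact ((c1.mul_left c2).sub_left (c2.mul_left c1)).eq
  · intro μ ν hν
    by_contra hc
    apply hν
    have hb0 := GeS_basis b μ
    have hN : Nn q t b k * Nn q t b l = Nn q t b l * Nn q t b k := dg_comm b _ _
    have hexp : Gk q t b k * Gk q t b l - Gk q t b l * Gk q t b k
        = (Nn q t b k * Rk q t b l + Rk q t b k * Nn q t b l + Rk q t b k * Rk q t b l)
          - (Nn q t b l * Rk q t b k + Rk q t b l * Nn q t b k + Rk q t b l * Rk q t b k) := by
      rw [Gk_eq, Gk_eq, add_mul, mul_add, mul_add, add_mul, mul_add, mul_add, hN]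
      abel
    have hmem : (Gk q t b k * Gk q t b l - Gk q t b l * Gk q t b k) (b μ)
        ∈ GeS b (TH.card μ + 1) := by
      rw [hexp]
      simp only [LinearMap.sub_apply, LinearMap.add_apply, Module.End.mul_apply]
      have m1 : ∀ i j : ℕ, (Nn q t b i) (Rk q t b j (b μ)) ∈ GeS b (TH.card μ + 1) :=
        fun i j => GeS_dg b _ (GeS_Rk hE j hb0)
      have m2 : ∀ i j : ℕ, (Rk q t b i) (Nn q t b j (b μ)) ∈ GeS b (TH.card μ + 1) :=
        fun i j => GeS_Rk hE i (GeS_dg b _ hb0)
      have m3 : ∀ i j : ℕ, (Rk q t b i) (Rk q t b j (b μ)) ∈ GeS b (TH.card μ + 1) :=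
        fun i j => GeS_mono (show TH.card μ + 1 ≤ TH.card μ + 1 + 1 by omega)
          (GeS_Rk hE i (GeS_Rk hE j hb0))
      exact Submodule.sub_mem _
        (Submodule.add_mem _ (Submodule.add_mem _ (m1 k l) (m2 k l)) (m3 k l))
        (Submodule.add_mem _ (Submodule.add_mem _ (m1 l k) (m2 l k)) (m3 l k))
    exact hmem ν (by omega)

end

end TH29
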