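import Pool.Agent.Helper86.TH.Stmts
import Pool.Agent.Helper86.TH.Basic4

/-! # Row STAR: the scalar product identity for words -/

namespace TH29

open TH MvPolynomial Finset

noncomputable section

theorem list_eq_ofFn {α : Type*} (L : List α) (m : ℕ) (h : L.length = m) :
    ∃ a : Fin m → α, List.ofFn a = L := by
  subst h
  exact ⟨L.get, List.ofFn_get L⟩

variable (K : Type*) [Field K] [CharZero K]

theorem st_STAR (h1 : ST_DS K) (h2 : ST_BT K) (h3 : ST_BI K) : ST_STAR K := by
  intro q t hG b hb m n p k d hm hp hd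
  rw [WP] at hp
  induction hp using Submodule.span_induction with
  | mem x hx =>
    obtain ⟨L, hL, hs, rfl⟩ := hx
    obtain ⟨a, ha⟩ := list_eq_ofFn L.reverse m (by rw [List.length_reverse, hL])
    have hL2 : L = (List.ofFn a).reverse := by rw [ha, List.reverse_reverse]
    have hn : ∑ i, a i = n := by
      rw [← hs, hL2, List.sum_reverse, List.sum_ofFn]
    have hcoe : (do let a ← L; pure (a : ℤ) : List ℤ) = L.map (fun a : ℕ => (a : ℤ)) := by
      rw [List.bind_eq_flatMap]
      exact List.flatMap_pure_eq_map _ _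
    have e1 : (List.map (fun x : ℤ => Dk q t (x + k)) (L.map (fun a : ℕ => (a : ℤ)))).prod
        = (((List.ofFn (fun i => (a i : ℤ) + k)).reverse.map (fun x => Dk q t x)).prod :
            Module.End K (Sy K)) := by
      have e0 : List.ofFn (fun i => (a i : ℤ) + k)
          = (List.ofFn a).map (fun x : ℕ => (x : ℤ) + k) := by
        rw [List.map_ofFn]
        rfl
      rw [e0, ← List.map_reverse, List.map_map, ← hL2, List.map_map]
      rfl
    have e2 : (L.reverse.map (fun x => BS q t x)).prod = Bm q t m a := by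
      rw [Bm, ha]
    have hDS := h1 q t m a k d hm (by rw [hn]; exact hd)
    rw [hn] at hDS
    simp only
    rw [hcoe, e1, e2]
    rw [Vm] at hDS
    rw [hDS]
    split_ifs with hdm
    · have e3 : En q t b (m - d) (Hn q t b k (Bm q t m a 1))
          = (En q t b (m - d) * Hn q t b k * Bm q t m a) 1 := rfl
      rw [e3, h3 q t hG b hb m a (m - d) k, map_sum]
      refine Finset.sum_congr rfl fun R _ => ?_
      rw [map_sum]
      refine Finset.sum_congr rfl fun γ _ => ?_
      rw [h2 q t hG b hb]
      congr 1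
      funext i
      split_ifs <;> push_cast <;> ring
    · rfl
  | zero =>
    simp
  | add x y _ _ hx hy =>
    have e1 : ((x + y).1 (k : ℤ)) 1 = (x.1 (k : ℤ)) 1 + (y.1 (k : ℤ)) 1 := rfl
    have e2 : (x + y).2 1 = x.2 1 + y.2 1 := rfl
    rw [e1, e2, map_add, LinearMap.add_apply, mul_add, hx, hy]
    split_ifs
    · rw [map_add, map_add, map_add]
    · rw [add_zero]
  | smul c x _ hx =>
    have e1 : ((c • x).1 (k : ℤ)) 1 = c • (x.1 (k : ℤ)) 1 := rfl
    have e2 : (c • x).2 1 = c • x.2 1 := rfl
    rw [e1, e2, map_smul, LinearMap.smul_apply, mul_smul_comm, hx]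
    split_ifs
    · rw [map_smul, map_smul, map_smul]
    · rw [smul_zero]

end

end TH29
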