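import Pool.Agent.Helper86.TH.Stmts
import Pool.Agent.Helper86.TH.Basic4

/-! # Row W5: the conjugation of `e_k[X/M]` by `N(v)` -/

namespace TH29

open TH MvPolynomial Finset

noncomputable section

/-- a double sum over a rectangle, ordered by the antidiagonals -/
theorem sum_rect {M : Type*} [AddCommMonoid M] (k m : ℕ) (f : ℕ × ℕ → M)
    (h : ∀ p : ℕ × ℕ, (k < p.1 ∨ m < p.2) → f p = 0) :
    ∑ l ∈ range (k + m + 1), ∑ p ∈ antidiagonal l, f p
      = ∑ j ∈ range (k + 1), ∑ s ∈ range (m + 1), f (j, s) := by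
  classical
  rw [← Finset.sum_product' (range (k + 1)) (range (m + 1)) (fun j s => f (j, s))]
  have h1 : ∀ x ∈ range (k + 1) ×ˢ range (m + 1), x.1 + x.2 ∈ range (k + m + 1) := by
    intro x hx
    rw [Finset.mem_product, mem_range, mem_range] at hx
    rw [mem_range]
    omega
  rw [← Finset.sum_fiberwise_of_maps_to h1]
  refine Finset.sum_congr rfl fun l _ => ?_
  symm
  refine Finset.sum_subset ?_ ?_
  · intro x hx
    rw [Finset.mem_filter] at hx
    rw [HasAntidiagonal.mem_antidiagonal]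
    exact hx.2
  · intro x hx hx2
    rw [HasAntidiagonal.mem_antidiagonal] at hx
    rw [Finset.mem_filter, Finset.mem_product, mem_range, mem_range] at hx2
    apply h
    by_contra h3
    apply hx2
    push Not at h3
    exact ⟨⟨by omega, by omega⟩, hx⟩

/-- associativity of the triple convolution -/
theorem sum_triple {M : Type*} [AddCommMonoid M] (l : ℕ) (f : ℕ → ℕ → ℕ → M) :
    ∑ p ∈ antidiagonal l, ∑ r ∈ antidiagonal p.1, f r.1 r.2 p.2
      = ∑ p ∈ antidiagonal l, ∑ r ∈ antidiagonal p.2, f p.1 r.1 r.2 := by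
  rw [Finset.sum_sigma', Finset.sum_sigma']
  refine Finset.sum_nbij' (fun x => ⟨(x.2.1, x.2.2 + x.1.2), (x.2.2, x.1.2)⟩)
    (fun x => ⟨(x.1.1 + x.2.1, x.2.2), (x.1.1, x.2.1)⟩) ?_ ?_ ?_ ?_ ?_
  · rintro ⟨⟨a, c⟩, ⟨d, e⟩⟩ h
    simp only [Finset.mem_sigma, HasAntidiagonal.mem_antidiagonal] at h ⊢
    obtain ⟨h1, h2⟩ := h
    constructor
    · change d + (e + c) = l
      omega
    · trivial
  · rintro ⟨⟨a, c⟩, ⟨d, e⟩⟩ h
    simp only [Finset.mem_sigma, HasAntidiagonal.mem_antidiagonal] at h ⊢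
    obtain ⟨h1, h2⟩ := h
    constructor
    · change a + d + e = l
      omega
    · trivial
  · rintro ⟨⟨a, c⟩, ⟨d, e⟩⟩ h
    simp only [Finset.mem_sigma, HasAntidiagonal.mem_antidiagonal] at h
    obtain ⟨h1, h2⟩ := h
    subst h2
    rfl
  · rintro ⟨⟨a, c⟩, ⟨d, e⟩⟩ h
    simp only [Finset.mem_sigma, HasAntidiagonal.mem_antidiagonal] at h
    obtain ⟨h1, h2⟩ := h
    subst h2
    rfl
  · rintro ⟨⟨a, c⟩, ⟨d, e⟩⟩ h
    rfl

variable (K : Type*) [Field K] [CharZero K]

theorem st_W5 (h1 : ST_CS K) (h2 : ST_Y2 K) (h3 : ST_NU K) : ST_W5 K := by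
  intro q t hG b hb v k
  have hE : IsE q t b := hb.toIsE
  have hNH := (h1 q t hG b hb).2.2.1
  have hY := h2 q t hG b hb
  -- the relation in every degree
  have hNT : ∀ l : ℕ, Nn q t b l * mu (est q t k)
      = ∑ p ∈ antidiagonal l, Yy q t b k p.1 * Nn q t b p.2 := by
    intro l
    have e1 : ∑ p ∈ antidiagonal l, Yy q t b k p.1 * Nn q t b p.2
        = ∑ p ∈ antidiagonal l, ∑ r ∈ antidiagonal p.1,
            Nn q t b r.1 * mu (est q t k) * (Nn q t b p.2 * Hn q t b r.2) := by
      refine Finset.sum_congr rfl fun p _ => ?_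
      rw [Yy, Finset.sum_mul]
      refine Finset.sum_congr rfl fun r _ => ?_
      rw [mul_assoc _ (Hn q t b r.2)]
      congr 1
      exact dg_comm b _ _
    have e2 := sum_triple l (fun a c e =>
      Nn q t b a * mu (est q t k) * (Nn q t b e * Hn q t b c))
    rw [e1, e2]
    have e3 : ∀ p ∈ antidiagonal l, ∑ r ∈ antidiagonal p.2,
        Nn q t b p.1 * mu (est q t k) * (Nn q t b r.2 * Hn q t b r.1)
        = if p = (l, 0) then Nn q t b l * mu (est q t k) else 0 := by
      intro p hp
      rw [HasAntidiagonal.mem_antidiagonal] at hp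
      rw [← Finset.mul_sum]
      have e4 : ∑ r ∈ antidiagonal p.2, Nn q t b r.2 * Hn q t b r.1
          = if p.2 = 0 then 1 else 0 := by
        rw [← hNH p.2, ← Finset.Nat.sum_antidiagonal_swap]
        rfl
      rw [e4]
      by_cases h0 : p.2 = 0
      · rw [if_pos h0, if_pos, mul_one]
        · congr 2
          omega
        · ext
          · simp only; omega
          · exact h0
      · rw [if_neg h0, if_neg, mul_zero]
        rintro rfl
        exact h0 rfl
    rw [Finset.sum_congr rfl e3, Finset.sum_ite_eq', if_pos]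
    rw [HasAntidiagonal.mem_antidiagonal]
    simp
  refine b.ext fun μ => ?_
  -- expansion of the left side
  have hF : WH (k + TH.card μ) (est q t k * b μ) := WH_mul (WH_est q t k) (hE.hom μ)
  have f1 : dg b (Nu q t v) (est q t k * b μ)
      = ∑ l ∈ range (k + TH.card μ + 1), v ^ l • Nn q t b l (est q t k * b μ) := by
    apply b.repr.injective
    ext ν
    rw [dg_repr, map_sum, Finsupp.finsetSum_apply]
    by_cases hc : TH.card ν = k + TH.card μ
    · rw [(h3 q t ν).1 v, hc, Finset.sum_mul]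
      refine Finset.sum_congr rfl fun l _ => ?_
      rw [map_smul, Finsupp.smul_apply, Nn, dg_repr, smul_eq_mul]
      ring
    · rw [hE.repr_zero hF hc, mul_zero]
      symm
      refine Finset.sum_eq_zero fun l _ => ?_
      rw [map_smul, Finsupp.smul_apply, Nn, dg_repr, hE.repr_zero hF hc, mul_zero, smul_zero]
  have f2 : ∀ l, v ^ l • Nn q t b l (est q t k * b μ)
      = ∑ p ∈ antidiagonal l, (v ^ p.1 * v ^ p.2) • Yy q t b k p.1 (Nn q t b p.2 (b μ)) := by
    intro l
    have h4 := congrArg (fun f : Module.End K (Sy K) => f (b μ)) (hNT l)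
    simp only [Module.End.mul_apply, LinearMap.sum_apply] at h4
    rw [mu_apply] at h4
    rw [h4, Finset.smul_sum]
    refine Finset.sum_congr rfl fun p hp => ?_
    rw [HasAntidiagonal.mem_antidiagonal] at hp
    rw [← pow_add, hp]
  have f3 := sum_rect k (TH.card μ)
    (fun p : ℕ × ℕ => (v ^ p.1 * v ^ p.2) • Yy q t b k p.1 (Nn q t b p.2 (b μ))) (by
      rintro ⟨j, s⟩ h
      rcases h with h | h
      · simp only at h ⊢
        rw [hY k j h, LinearMap.zero_apply, smul_zero]
      · simp only at h ⊢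
        rw [Nn, dg_apply_basis, (h3 q t μ).2 s h, zero_smul, map_zero, smul_zero])
  rw [Module.End.mul_apply, mu_apply, f1, Finset.sum_congr rfl (fun l _ => f2 l), f3,
    LinearMap.sum_apply]
  refine Finset.sum_congr rfl fun j _ => ?_
  rw [LinearMap.smul_apply, Module.End.mul_apply, dg_apply_basis, (h3 q t μ).1 v,
    Finset.sum_smul, map_sum, Finset.smul_sum]
  refine Finset.sum_congr rfl fun s _ => ?_
  rw [Nn, dg_apply_basis, map_smul, map_smul, smul_smul, smul_smul]
  congr 1
  ring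

end

end TH29
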